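import Pool.Agent.Work.MP_2738db_nt_ZZ.Interface

/-!
**O2**: sums, large `k`.
-/

set_option autoImplicit false

namespace Pool.Agent.Work.MP_2738db_nt_ZZ.helper23

open Finset

/-- the factorisation `c = d z` with `z` close to `d ^ (p - 1)` -/
theorem core (hS : Stmt_Str) {p c k : ℕ} (hp : p.Prime) (hp3 : 3 ≤ p) (hk : 1 ≤ k)
    (h : Pl p c k) :
    ∃ d z B : ℕ, c = d * z ∧ 2 ≤ d ∧ 1 ≤ z ∧ z ≤ d ^ (p - 1) ∧
      (d ^ (p - 1)) ^ k ≤ B * z ^ k ∧ (B = 2 ^ (p - 1) ∨ (B = p ^ p * 2 ^ (p - 1) ∧ p ≤ d)) := by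
  obtain ⟨x, y, hx, hy, hxy, he⟩ := h
  have hodd : Odd p := hp.odd_of_ne_two (by omega)
  have hc : 2 ≤ c := by
    by_contra hlt
    have h1 : c ≤ 1 := by omega
    have h2 : c ^ k ≤ 1 := Nat.pow_le_one_iff (by omega) |>.2 h1
    have h3 : 1 ≤ x ^ p := Nat.one_le_pow _ _ hx
    have h4 : 1 ≤ y ^ p := Nat.one_le_pow _ _ hy
    omega
  have hcop : IsCoprime (x : ℤ) (-(y : ℤ)) := (Nat.isCoprime_iff_coprime.2 hxy).neg_right
  have he' : (x : ℤ) ^ p - (-(y : ℤ)) ^ p = (c : ℤ) ^ k := by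
    rw [hodd.neg_pow]
    have h1 : ((x ^ p + y ^ p : ℕ) : ℤ) = ((c ^ k : ℕ) : ℤ) := by rw [he]
    push_cast at h1
    linarith
  obtain ⟨d, z, D, hcd, hD, hD1, -, -, -, hcase⟩ :=
    hS p x (-(y : ℤ)) c k hp hp3 hcop (by omega) hk he'
  have hDn : x + y = D := by
    have : ((x + y : ℕ) : ℤ) = (D : ℤ) := by push_cast; linarith
    exact_mod_cast this
  have hd0 : 0 < d := by
    rcases Nat.eq_zero_or_pos d with h0 | h0
    · subst h0; simp at hcd; omega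
    · exact h0
  have hz0 : 0 < z := by
    rcases Nat.eq_zero_or_pos z with h0 | h0
    · subst h0; simp at hcd; omega
    · exact h0
  -- the two inequalities
  have hA : c ^ k ≤ D ^ p := by
    rw [← hDn, ← he]
    exact pow_add_pow_le (Nat.zero_le _) (Nat.zero_le _) (by omega)
  have hB : D ^ p ≤ 2 ^ (p - 1) * c ^ k := by
    rw [← hDn, ← he]
    exact add_pow_le (Nat.zero_le _) (Nat.zero_le _) p
  have hck : c ^ k = d ^ k * z ^ k := by rw [hcd, mul_pow]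
  have hdk : 0 < d ^ k := Nat.pow_pos hd0
  have hsplit : (d ^ k) ^ p = d ^ k * (d ^ (p - 1)) ^ k := by
    obtain ⟨q, rfl⟩ : ∃ q, p = q + 1 := ⟨p - 1, by omega⟩
    simp only [Nat.add_sub_cancel]
    rw [← pow_mul, ← pow_mul, ← pow_add]
    congr 1
    ring
  -- the common part
  have key : ∀ B : ℕ, d ^ k * z ^ k ≤ (d ^ k) ^ p → (d ^ k) ^ p ≤ B * (d ^ k * z ^ k) →
      2 ≤ d ∧ z ≤ d ^ (p - 1) ∧ (d ^ (p - 1)) ^ k ≤ B * z ^ k := by
    intro B h1 h2
    rw [hsplit] at h1 h2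
    have h3 : z ^ k ≤ (d ^ (p - 1)) ^ k := Nat.le_of_mul_le_mul_left h1 hdk
    have h4 : z ≤ d ^ (p - 1) := (Nat.pow_le_pow_iff_left (by omega)).1 h3
    refine ⟨?_, h4, ?_⟩
    · by_contra hlt
      have hd1 : d = 1 := by omega
      rw [hd1, one_pow] at h4
      rw [hd1, one_mul] at hcd
      omega
    · have h5 : d ^ k * (d ^ (p - 1)) ^ k ≤ d ^ k * (B * z ^ k) := by
        calc d ^ k * (d ^ (p - 1)) ^ k ≤ B * (d ^ k * z ^ k) := h2
          _ = d ^ k * (B * z ^ k) := by ring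
      exact Nat.le_of_mul_le_mul_left h5 hdk
  rcases hcase with ⟨hDd, -, -⟩ | ⟨hpd, hDd, -⟩
  · obtain ⟨k1, k2, k3⟩ := key (2 ^ (p - 1)) (by rw [← hck, ← hDd]; exact hA)
      (by rw [← hck, ← hDd]; exact hB)
    exact ⟨d, z, 2 ^ (p - 1), hcd, k1, hz0, k2, k3, Or.inl rfl⟩
  · have hpp : 1 ≤ p ^ p := Nat.one_le_pow _ _ (by omega)
    obtain ⟨k1, k2, k3⟩ := key (p ^ p * 2 ^ (p - 1))
      (by
        rw [← hck, ← hDd, mul_pow]
        calc c ^ k ≤ 1 * D ^ p := by rw [one_mul]; exact hA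
          _ ≤ p ^ p * D ^ p := Nat.mul_le_mul_right _ hpp)
      (by
        rw [← hck, ← hDd, mul_pow, mul_assoc]
        exact Nat.mul_le_mul_left _ hB)
    exact ⟨d, z, p ^ p * 2 ^ (p - 1), hcd, k1, hz0, k2, k3, Or.inr ⟨rfl, Nat.le_of_dvd hd0 hpd⟩⟩

/-- the logarithmic form of the inequality -/
theorem log_ineq {p k d z B : ℕ} (hd : 1 ≤ d) (hz : 1 ≤ z) (hB : 1 ≤ B)
    (h : (d ^ (p - 1)) ^ k ≤ B * z ^ k) :
    (k : ℝ) * Real.log ((d : ℝ) ^ (p - 1)) ≤ Real.log B + k * Real.log z := by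
  have h1 : (((d ^ (p - 1)) ^ k : ℕ) : ℝ) ≤ ((B * z ^ k : ℕ) : ℝ) := by exact_mod_cast h
  push_cast at h1
  have hd' : (0 : ℝ) < d := by exact_mod_cast hd
  have hz' : (0 : ℝ) < z := by exact_mod_cast hz
  have hB' : (0 : ℝ) < B := by exact_mod_cast hB
  have h2 := Real.log_le_log (by positivity) h1
  have e1 : Real.log (((d : ℝ) ^ (p - 1)) ^ k) = k * Real.log ((d : ℝ) ^ (p - 1)) :=
    Real.log_pow _ _
  have e2 : Real.log ((B : ℝ) * (z : ℝ) ^ k) = Real.log B + k * Real.log z := by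
    rw [Real.log_mul (by positivity) (by positivity)]
    congr 1
    exact Real.log_pow _ _
  rw [e1, e2] at h2
  exact h2

/-- `p ≤ 2 log N` -/
theorem p_le {p k d z B N : ℕ} (hp3 : 3 ≤ p) (hk : 10 ≤ k) (hd : 2 ≤ d) (hz : 1 ≤ z)
    (hN : d * z ≤ N) (h : (d ^ (p - 1)) ^ k ≤ B * z ^ k)
    (hB : B = 2 ^ (p - 1) ∨ (B = p ^ p * 2 ^ (p - 1) ∧ p ≤ d)) :
    (p : ℝ) ≤ 2 * Real.log N := by
  have hB1 : 1 ≤ B := by
    rcases hB with h | ⟨h, -⟩
    · rw [h]; exact Nat.one_le_pow _ _ (by omega)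
    · rw [h]; exact Nat.mul_pos (Nat.pow_pos (by omega)) (Nat.pow_pos (by omega))
  have h1 := log_ineq (by omega) hz hB1 h
  have hd' : (0 : ℝ) < d := by exact_mod_cast (by omega : 0 < d)
  have hz' : (0 : ℝ) < z := by exact_mod_cast hz
  have hp' : (3 : ℝ) ≤ p := by exact_mod_cast hp3
  have hk' : (10 : ℝ) ≤ k := by exact_mod_cast hk
  have hl2 : (0.69 : ℝ) ≤ Real.log 2 := by
    have := Real.log_two_gt_d9
    linarith
  have hld : Real.log 2 ≤ Real.log d := Real.log_le_log (by norm_num) (by exact_mod_cast hd)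
  have hlN : Real.log d + Real.log z ≤ Real.log N := by
    rw [← Real.log_mul hd'.ne' hz'.ne']
    exact Real.log_le_log (by positivity) (by exact_mod_cast hN)
  have hpsub : ((p - 1 : ℕ) : ℝ) = (p : ℝ) - 1 := by
    rw [Nat.cast_sub (by omega)]; simp
  rw [Real.log_pow, hpsub] at h1
  -- `k p log d ≤ log B + k log N`
  have h2 : (k : ℝ) * (p * Real.log d) ≤ Real.log B + k * Real.log N := by
    have : (k : ℝ) * (Real.log d + Real.log z) ≤ k * Real.log N :=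
      mul_le_mul_of_nonneg_left hlN (by positivity)
    nlinarith
  -- `log B ≤ 2 p log d`
  have hp1 : (0 : ℝ) < p := by linarith
  have h3 : Real.log B ≤ 2 * (p * Real.log d) := by
    rcases hB with hB | ⟨hB, hpd⟩
    · rw [hB]
      push_cast
      rw [Real.log_pow, hpsub]
      have : ((p : ℝ) - 1) * Real.log 2 ≤ p * Real.log d :=
        mul_le_mul (by linarith) hld (by linarith) hp1.le
      have h0 : 0 ≤ (p : ℝ) * Real.log d := mul_nonneg hp1.le (by linarith)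
      linarith
    · rw [hB]
      push_cast
      rw [Real.log_mul (by positivity) (by positivity), Real.log_pow, Real.log_pow, hpsub]
      have a1 : ((p : ℝ) - 1) * Real.log 2 ≤ p * Real.log d :=
        mul_le_mul (by linarith) hld (by linarith) hp1.le
      have a2 : (p : ℝ) * Real.log p ≤ p * Real.log d :=
        mul_le_mul_of_nonneg_left (Real.log_le_log hp1 (by exact_mod_cast hpd)) hp1.le
      linarith
  -- `(k - 2) p log d ≤ k log N`
  have h4 : ((k : ℝ) - 2) * (p * Real.log d) ≤ k * Real.log N := by linarith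
  have h5 : (p : ℝ) * 0.69 ≤ p * Real.log d := mul_le_mul_of_nonneg_left (by linarith) hp1.le
  have h6 : ((k : ℝ) - 2) * (p * 0.69) ≤ k * Real.log N :=
    (mul_le_mul_of_nonneg_left h5 (by linarith)).trans h4
  -- conclude
  by_contra hlt
  push Not at hlt
  have h7 : (k : ℝ) * Real.log N ≤ k * (p / 2) := mul_le_mul_of_nonneg_left (by linarith)
    (by linarith)
  have h8 : ((k : ℝ) - 2) * (p * 0.69) ≤ k * (p / 2) := h6.trans h7
  nlinarith [mul_pos (by linarith : (0 : ℝ) < k) hp1]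

/-- `log B ≤ p log (2 p)` -/
theorem log_B {p B : ℕ} (hp3 : 3 ≤ p) (hB : B = 2 ^ (p - 1) ∨ B = p ^ p * 2 ^ (p - 1)) :
    1 ≤ B ∧ Real.log B ≤ p * Real.log (2 * p) := by
  have hp' : (3 : ℝ) ≤ p := by exact_mod_cast hp3
  have hp1 : (0 : ℝ) < p := by linarith
  have hpsub : ((p - 1 : ℕ) : ℝ) = (p : ℝ) - 1 := by
    rw [Nat.cast_sub (by omega)]; simp
  have h1 : Real.log (2 * p) = Real.log 2 + Real.log p := Real.log_mul (by norm_num) hp1.ne'
  have h2 : 0 ≤ Real.log 2 := Real.log_nonneg (by norm_num)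
  have h3 : 0 ≤ Real.log p := Real.log_nonneg (by linarith)
  rcases hB with hB | hB
  · refine ⟨by rw [hB]; exact Nat.one_le_pow _ _ (by omega), ?_⟩
    rw [hB, h1]
    push_cast
    rw [Real.log_pow, hpsub]
    nlinarith
  · refine ⟨by rw [hB]; exact Nat.mul_pos (Nat.pow_pos (by omega)) (Nat.pow_pos (by omega)), ?_⟩
    rw [hB, h1]
    push_cast
    rw [Real.log_mul (by positivity) (by positivity), Real.log_pow, Real.log_pow, hpsub]
    nlinarith

/-- the error term -/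
noncomputable def th (K p : ℕ) : ℝ := p * Real.log (2 * p) / K

theorem th_nonneg (K p : ℕ) (hp : 3 ≤ p) : 0 ≤ th K p := by
  have hp' : (3 : ℝ) ≤ p := by exact_mod_cast hp
  unfold th
  have := Real.log_nonneg (by linarith : (1 : ℝ) ≤ 2 * p)
  positivity

/-- `z ≥ (1 - θ) d ^ (p - 1)` and `d ^ p ≤ 3 N` -/
theorem bounds {p k K d z B N : ℕ} (hp3 : 3 ≤ p) (hK : 10 ≤ K) (hKk : K ≤ k) (hd : 2 ≤ d)
    (hz : 1 ≤ z) (hN : d * z ≤ N) (h : (d ^ (p - 1)) ^ k ≤ B * z ^ k)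
    (hB : B = 2 ^ (p - 1) ∨ B = p ^ p * 2 ^ (p - 1)) (hth : th K p ≤ 1) :
    (d : ℝ) ^ (p - 1) - z ≤ th K p * (d : ℝ) ^ (p - 1) ∧ d ^ p ≤ 3 * N := by
  obtain ⟨hB1, hB2⟩ := log_B hp3 hB
  have h1 := log_ineq (by omega) hz hB1 h
  have hd' : (0 : ℝ) < d := by exact_mod_cast (by omega : 0 < d)
  have hz' : (0 : ℝ) < z := by exact_mod_cast hz
  have hK' : (10 : ℝ) ≤ K := by exact_mod_cast hK
  have hKk' : (K : ℝ) ≤ k := by exact_mod_cast hKk
  have hk0 : (0 : ℝ) < k := by linarith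
  have hth0 := th_nonneg K p hp3
  have h2 : Real.log B ≤ k * th K p := by
    have h3 : (p : ℝ) * Real.log (2 * p) = K * th K p := by
      unfold th
      field_simp
    calc Real.log B ≤ p * Real.log (2 * p) := hB2
      _ = K * th K p := h3
      _ ≤ k * th K p := mul_le_mul_of_nonneg_right hKk' hth0
  have h3 : (k : ℝ) * Real.log ((d : ℝ) ^ (p - 1)) ≤ k * (th K p + Real.log z) := by
    linarith
  have h4 : Real.log ((d : ℝ) ^ (p - 1)) ≤ th K p + Real.log z := le_of_mul_le_mul_left h3 hk0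
  have h5 : (d : ℝ) ^ (p - 1) ≤ Real.exp (th K p) * z := by
    have := Real.exp_le_exp.2 h4
    rwa [Real.exp_log (by positivity), Real.exp_add, Real.exp_log hz'] at this
  constructor
  · -- `z ≥ exp (- θ) d ^ (p - 1) ≥ (1 - θ) d ^ (p - 1)`
    have h6 : 1 - th K p ≤ Real.exp (- th K p) := by
      have := Real.add_one_le_exp (- th K p)
      linarith
    have h7 : Real.exp (- th K p) * (d : ℝ) ^ (p - 1) ≤ z := by
      have h8 := mul_le_mul_of_nonneg_left h5 (Real.exp_pos (- th K p)).le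
      rwa [← mul_assoc, ← Real.exp_add, neg_add_cancel, Real.exp_zero, one_mul] at h8
    have h8 : (1 - th K p) * (d : ℝ) ^ (p - 1) ≤ Real.exp (- th K p) * (d : ℝ) ^ (p - 1) :=
      mul_le_mul_of_nonneg_right h6 (by positivity)
    linarith
  · have h6 : Real.exp (th K p) ≤ 3 := by
      have h7 : Real.exp (th K p) ≤ Real.exp 1 := Real.exp_le_exp.2 hth
      have := Real.exp_one_lt_d9
      linarith
    have h7 : ((d ^ p : ℕ) : ℝ) ≤ ((3 * N : ℕ) : ℝ) := by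
      push_cast
      have hpp : (d : ℝ) ^ p = d * (d : ℝ) ^ (p - 1) := by
        rw [← pow_succ', Nat.sub_add_cancel (by omega)]
      rw [hpp]
      have hN' : (d : ℝ) * z ≤ N := by exact_mod_cast hN
      calc (d : ℝ) * (d : ℝ) ^ (p - 1) ≤ d * (Real.exp (th K p) * z) :=
            mul_le_mul_of_nonneg_left h5 hd'.le
        _ = Real.exp (th K p) * (d * z) := by ring
        _ ≤ 3 * N := mul_le_mul h6 hN' (by positivity) (by norm_num)
    exact_mod_cast h7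

/-- the largest `d` with `d ^ p ≤ 3 N` -/
def mx (N p : ℕ) : ℕ := Nat.findGreatest (fun m => m ^ p ≤ 3 * N) (3 * N)

theorem mx_pow {N p : ℕ} (hN : 1 ≤ N) (hp : 1 ≤ p) : mx N p ^ p ≤ 3 * N :=
  Nat.findGreatest_spec (P := fun m => m ^ p ≤ 3 * N) (m := 0) (Nat.zero_le _)
    (by simp only [zero_pow (by omega : p ≠ 0)]; omega)

theorem le_mx {N p d : ℕ} (hp : 1 ≤ p) (h : d ^ p ≤ 3 * N) : d ≤ mx N p :=
  Nat.le_findGreatest ((Nat.le_self_pow (by omega) d).trans h) h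

theorem mx_le {N p : ℕ} (hN : 1 ≤ N) (hp : 3 ≤ p) :
    (mx N p : ℝ) ≤ (3 * (N : ℝ)) ^ (1 / 3 : ℝ) := by
  rcases Nat.eq_zero_or_pos (mx N p) with h0 | h0
  · rw [h0]
    simp only [Nat.cast_zero]
    positivity
  · have h1 : mx N p ^ 3 ≤ 3 * N := (Nat.pow_le_pow_right h0 hp).trans (mx_pow hN (by omega))
    have h2 : ((mx N p : ℝ)) ^ (3 : ℕ) ≤ 3 * (N : ℝ) := by exact_mod_cast h1
    have h3 : (mx N p : ℝ) = ((mx N p : ℝ) ^ (3 : ℕ)) ^ (1 / 3 : ℝ) := by
      rw [← Real.rpow_natCast, ← Real.rpow_mul (by positivity)]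
      norm_num
    rw [h3]
    exact Real.rpow_le_rpow (by positivity) h2 (by norm_num)

/-- the products `d z` for a fixed `p` -/
noncomputable def cand (N K p : ℕ) : Finset ℕ :=
  (Icc 1 (mx N p)).biUnion fun d =>
    (Icc (d ^ (p - 1) - ⌊th K p * (d : ℝ) ^ (p - 1)⌋₊) (d ^ (p - 1))).image fun z => d * z

theorem card_cand {N K p : ℕ} (hN : 1 ≤ N) (hp : 3 ≤ p) :
    ((cand N K p).card : ℝ) ≤ (3 * (N : ℝ)) ^ (1 / 3 : ℝ) + 3 * N * th K p := by
  have hth := th_nonneg K p hp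
  have h1 : ((cand N K p).card : ℝ) ≤ ∑ d ∈ Icc 1 (mx N p), (1 + th K p * (d : ℝ) ^ (p - 1)) := by
    have h2 : (cand N K p).card ≤ ∑ d ∈ Icc 1 (mx N p),
        (⌊th K p * (d : ℝ) ^ (p - 1)⌋₊ + 1) := by
      refine card_biUnion_le.trans (sum_le_sum fun d _ => card_image_le.trans ?_)
      rw [Nat.card_Icc]
      omega
    calc ((cand N K p).card : ℝ) ≤ ((∑ d ∈ Icc 1 (mx N p),
        (⌊th K p * (d : ℝ) ^ (p - 1)⌋₊ + 1) : ℕ) : ℝ) := by exact_mod_cast h2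
      _ = ∑ d ∈ Icc 1 (mx N p), ((⌊th K p * (d : ℝ) ^ (p - 1)⌋₊ : ℝ) + 1) := by push_cast; rfl
      _ ≤ _ := sum_le_sum fun d _ => by
        have := Nat.floor_le (a := th K p * (d : ℝ) ^ (p - 1)) (by positivity)
        linarith
  have h3 : ∑ d ∈ Icc 1 (mx N p), (1 + th K p * (d : ℝ) ^ (p - 1)) ≤
      mx N p + 3 * N * th K p := by
    rw [sum_add_distrib, ← mul_sum]
    have h4 : ∑ _d ∈ Icc 1 (mx N p), (1 : ℝ) = mx N p := by simp
    have h5 : ∑ d ∈ Icc 1 (mx N p), (d : ℝ) ^ (p - 1) ≤ 3 * N := by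
      calc ∑ d ∈ Icc 1 (mx N p), (d : ℝ) ^ (p - 1)
          ≤ ∑ d ∈ Icc 1 (mx N p), (mx N p : ℝ) ^ (p - 1) := sum_le_sum fun d hd => by
            have h6 : (d : ℝ) ≤ mx N p := by exact_mod_cast (mem_Icc.1 hd).2
            exact pow_le_pow_left₀ (by positivity) h6 _
        _ = mx N p * (mx N p : ℝ) ^ (p - 1) := by simp
        _ = (mx N p : ℝ) ^ p := by rw [← pow_succ', Nat.sub_add_cancel (by omega)]
        _ ≤ 3 * N := by exact_mod_cast mx_pow hN (by omega)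
    rw [h4]
    have := mul_le_mul_of_nonneg_left h5 hth
    linarith
  exact (h1.trans h3).trans (by linarith [mx_le hN hp])

/-- Chebyshev -/
theorem sum_log (P : ℕ) : ∑ p ∈ (range (P + 1)).filter Nat.Prime, Real.log (2 * p) ≤
    P * Real.log 8 := by
  have h1 : ∑ p ∈ (range (P + 1)).filter Nat.Prime, Real.log (2 * p) =
      ∑ p ∈ (range (P + 1)).filter Nat.Prime, Real.log 2 +
        ∑ p ∈ (range (P + 1)).filter Nat.Prime, Real.log p := by
    rw [← sum_add_distrib]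
    refine sum_congr rfl fun p hp => ?_
    have hpp := (mem_filter.1 hp).2
    have : (0 : ℝ) < p := by exact_mod_cast hpp.pos
    rw [Real.log_mul (by norm_num) this.ne']
  have h2 : ∑ p ∈ (range (P + 1)).filter Nat.Prime, Real.log 2 ≤ P * Real.log 2 := by
    rw [sum_const, nsmul_eq_mul]
    refine mul_le_mul_of_nonneg_right ?_ (Real.log_nonneg (by norm_num))
    have h3 : (range (P + 1)).filter Nat.Prime ⊆ Icc 1 P := by
      intro p hp
      rw [mem_filter, mem_range] at hp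
      rw [mem_Icc]
      exact ⟨hp.2.pos, by omega⟩
    have h4 := card_le_card h3
    rw [Nat.card_Icc, Nat.add_sub_cancel] at h4
    exact_mod_cast h4
  have h3 : ∑ p ∈ (range (P + 1)).filter Nat.Prime, Real.log p ≤ P * Real.log 4 := by
    have h4 : ∑ p ∈ (range (P + 1)).filter Nat.Prime, Real.log p = Real.log (primorial P) := by
      rw [primorial, Nat.cast_prod, Real.log_prod]
      intro p hp
      have hpp := (mem_filter.1 hp).2
      exact_mod_cast hpp.ne_zero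
    rw [h4, ← Real.log_pow]
    refine Real.log_le_log (by exact_mod_cast primorial_pos P) ?_
    exact_mod_cast primorial_le_four_pow P
  have h4 : Real.log 8 = Real.log 2 + Real.log 4 := by
    rw [← Real.log_mul (by norm_num) (by norm_num)]; norm_num
  rw [h1, h4]
  linarith

/-- **O2** -/
theorem o2 (hS : Stmt_Str) (_ : Stmt_Szp) : Stmt_O2 := by
  refine ⟨30, fun N K hN hK => ?_⟩
  set L : ℝ := Real.log N with hL
  have hN' : (2 : ℝ) ≤ N := by exact_mod_cast hN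
  have hL0 : 0 ≤ L := Real.log_nonneg (by linarith)
  have hK10 : (10 : ℝ) ≤ K := by nlinarith
  have hK10' : 10 ≤ K := by exact_mod_cast hK10
  set P : ℕ := ⌊2 * L⌋₊ with hP
  have hPL : (P : ℝ) ≤ 2 * L := Nat.floor_le (by positivity)
  have hthp : ∀ p : ℕ, 3 ≤ p → (p : ℝ) ≤ 2 * L → th K p ≤ 1 := by
    intro p hp hpL
    have hp' : (3 : ℝ) ≤ p := by exact_mod_cast hp
    have h1 : Real.log (2 * p) ≤ 2 * p := by
      have := Real.log_le_sub_one_of_pos (by linarith : (0 : ℝ) < 2 * p)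
      linarith
    unfold th
    rw [div_le_one (by linarith)]
    calc (p : ℝ) * Real.log (2 * p) ≤ p * (2 * p) := mul_le_mul_of_nonneg_left h1 (by linarith)
      _ = 2 * p ^ 2 := by ring
      _ ≤ 2 * (2 * L) ^ 2 := by
        have := pow_le_pow_left₀ (by linarith : (0 : ℝ) ≤ p) hpL 2
        linarith
      _ ≤ K := by nlinarith
  -- the set
  set A : Finset ℕ := ((range (P + 1)).filter fun p => p.Prime ∧ 3 ≤ p).biUnion (cand N K) with hA
  have hsub : {c : ℕ | 1 ≤ c ∧ c ≤ N ∧ ∃ p k : ℕ, p.Prime ∧ 3 ≤ p ∧ K ≤ k ∧ Pl p c k} ⊆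
      (A : Set ℕ) := by
    rintro c ⟨hc1, hcN, p, k, hp, hp3, hKk, hPl⟩
    obtain ⟨d, z, B, hcd, hd, hz, hzd, hin, hB⟩ := core hS hp hp3 (by omega) hPl
    have hdz : d * z ≤ N := hcd ▸ hcN
    have hpL := p_le hp3 (by omega) hd hz hdz hin hB
    obtain ⟨b1, b2⟩ := bounds hp3 hK10' hKk hd hz hdz hin
      (by rcases hB with h | ⟨h, -⟩; exacts [Or.inl h, Or.inr h]) (hthp p hp3 hpL)
    rw [hA, mem_coe, mem_biUnion]
    refine ⟨p, mem_filter.2 ⟨mem_range.2 ?_, hp, hp3⟩, ?_⟩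
    · have : p ≤ P := Nat.le_floor hpL
      omega
    · rw [cand, mem_biUnion]
      refine ⟨d, mem_Icc.2 ⟨by omega, le_mx (by omega) b2⟩, mem_image.2 ⟨z, mem_Icc.2 ⟨?_, hzd⟩,
        hcd.symm⟩⟩
      have h1 : ((d ^ (p - 1) - z : ℕ) : ℝ) ≤ th K p * (d : ℝ) ^ (p - 1) := by
        rw [Nat.cast_sub hzd]
        push_cast
        exact b1
      have h2 : d ^ (p - 1) - z ≤ ⌊th K p * (d : ℝ) ^ (p - 1)⌋₊ := Nat.le_floor h1
      omega
  have hcard : (({c : ℕ | 1 ≤ c ∧ c ≤ N ∧ ∃ p k : ℕ, p.Prime ∧ 3 ≤ p ∧ K ≤ k ∧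
      Pl p c k}.ncard : ℕ) : ℝ) ≤ (A.card : ℝ) := by
    have h1 := Set.ncard_le_ncard hsub A.finite_toSet
    rw [Set.ncard_coe_finset] at h1
    exact_mod_cast h1
  -- the sum over `p`
  have h1 : (A.card : ℝ) ≤ ∑ p ∈ (range (P + 1)).filter (fun p => p.Prime ∧ 3 ≤ p),
      ((3 * (N : ℝ)) ^ (1 / 3 : ℝ) + 3 * N * th K p) := by
    calc (A.card : ℝ) ≤ ((∑ p ∈ (range (P + 1)).filter (fun p => p.Prime ∧ 3 ≤ p),
        (cand N K p).card : ℕ) : ℝ) := by exact_mod_cast card_biUnion_le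
      _ = ∑ p ∈ (range (P + 1)).filter (fun p => p.Prime ∧ 3 ≤ p),
        ((cand N K p).card : ℝ) := by push_cast; rfl
      _ ≤ _ := sum_le_sum fun p hp => card_cand (by omega) (mem_filter.1 hp).2.2
  rw [sum_add_distrib, ← mul_sum] at h1
  have h2 : ∑ _p ∈ (range (P + 1)).filter (fun p => p.Prime ∧ 3 ≤ p),
      (3 * (N : ℝ)) ^ (1 / 3 : ℝ) ≤ 2 * L * (3 * (N : ℝ)) ^ (1 / 3 : ℝ) := by
    rw [sum_const, nsmul_eq_mul]
    refine mul_le_mul_of_nonneg_right ?_ (by positivity)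
    have h3 : (range (P + 1)).filter (fun p => p.Prime ∧ 3 ≤ p) ⊆ Icc 1 P := by
      intro p hp
      rw [mem_filter, mem_range] at hp
      rw [mem_Icc]
      omega
    have h4 := card_le_card h3
    rw [Nat.card_Icc, Nat.add_sub_cancel] at h4
    have h5 : ((((range (P + 1)).filter (fun p => p.Prime ∧ 3 ≤ p)).card : ℕ) : ℝ) ≤ P := by
      exact_mod_cast h4
    linarith
  have h3 : ∑ p ∈ (range (P + 1)).filter (fun p => p.Prime ∧ 3 ≤ p), th K p ≤
      (2 * L) * ((2 * L) * Real.log 8) / K := by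
    have h4 : ∑ p ∈ (range (P + 1)).filter (fun p => p.Prime ∧ 3 ≤ p), th K p ≤
        ∑ p ∈ (range (P + 1)).filter Nat.Prime, (2 * L / K) * Real.log (2 * p) := by
      refine (sum_le_sum (g := fun p : ℕ => (2 * L / K) * Real.log (2 * p)) fun p hp => ?_).trans
        (sum_le_sum_of_subset_of_nonneg ?_ fun p hp _ => ?_)
      · rw [mem_filter, mem_range] at hp
        have hp3 : (3 : ℝ) ≤ p := by exact_mod_cast hp.2.2
        have hpP : (p : ℝ) ≤ P := by exact_mod_cast (by omega : p ≤ P)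
        have h5 : 0 ≤ Real.log (2 * p) := Real.log_nonneg (by linarith)
        unfold th
        calc (p : ℝ) * Real.log (2 * p) / K ≤ (2 * L) * Real.log (2 * p) / K := by
              gcongr
              linarith
          _ = 2 * L / K * Real.log (2 * p) := by ring
      · intro p hp
        rw [mem_filter] at hp ⊢
        exact ⟨hp.1, hp.2.1⟩
      · have hpp := (mem_filter.1 hp).2
        have : (1 : ℝ) ≤ p := by exact_mod_cast hpp.pos
        have h5 : 0 ≤ Real.log (2 * p) := Real.log_nonneg (by linarith)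
        positivity
    rw [← mul_sum] at h4
    refine h4.trans ?_
    have h5 : ∑ p ∈ (range (P + 1)).filter Nat.Prime, Real.log (2 * p) ≤ 2 * L * Real.log 8 :=
      (sum_log P).trans (mul_le_mul_of_nonneg_right hPL (Real.log_nonneg (by norm_num)))
    calc 2 * L / K * ∑ p ∈ (range (P + 1)).filter Nat.Prime, Real.log (2 * p)
        ≤ 2 * L / K * (2 * L * Real.log 8) := mul_le_mul_of_nonneg_left h5 (by positivity)
      _ = (2 * L) * ((2 * L) * Real.log 8) / K := by ring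
  -- numerical estimates
  have h8 : Real.log 8 ≤ 2.1 := by
    have : Real.log 8 = 3 * Real.log 2 := by
      rw [show (8 : ℝ) = 2 ^ (3 : ℕ) by norm_num, Real.log_pow]; norm_num
    rw [this]
    have := Real.log_two_lt_d9
    linarith
  have h9 : 2 * L * (3 * (N : ℝ)) ^ (1 / 3 : ℝ) ≤ 30 * (N : ℝ) ^ (1 / 2 : ℝ) := by
    have a1 : L ≤ 6 * (N : ℝ) ^ (1 / 6 : ℝ) := by
      have := Real.log_le_sub_one_of_pos (by positivity : (0 : ℝ) < (N : ℝ) ^ (1 / 6 : ℝ))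
      rw [Real.log_rpow (by linarith)] at this
      rw [hL]
      linarith
    have a2 : (3 * (N : ℝ)) ^ (1 / 3 : ℝ) = 3 ^ (1 / 3 : ℝ) * (N : ℝ) ^ (1 / 3 : ℝ) :=
      Real.mul_rpow (by norm_num) (by linarith)
    have a3 : (3 : ℝ) ^ (1 / 3 : ℝ) ≤ 2 := by
      calc (3 : ℝ) ^ (1 / 3 : ℝ) ≤ (8 : ℝ) ^ (1 / 3 : ℝ) :=
            Real.rpow_le_rpow (by norm_num) (by norm_num) (by norm_num)
        _ = ((2 : ℝ) ^ (3 : ℝ)) ^ (1 / 3 : ℝ) := by norm_num
        _ = 2 := by rw [← Real.rpow_mul (by norm_num)]; norm_num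
    have a4 : (N : ℝ) ^ (1 / 6 : ℝ) * (N : ℝ) ^ (1 / 3 : ℝ) = (N : ℝ) ^ (1 / 2 : ℝ) := by
      rw [← Real.rpow_add (by linarith)]; norm_num
    rw [a2]
    calc 2 * L * (3 ^ (1 / 3 : ℝ) * (N : ℝ) ^ (1 / 3 : ℝ))
        ≤ 2 * (6 * (N : ℝ) ^ (1 / 6 : ℝ)) * (2 * (N : ℝ) ^ (1 / 3 : ℝ)) := by gcongr
      _ = 24 * ((N : ℝ) ^ (1 / 6 : ℝ) * (N : ℝ) ^ (1 / 3 : ℝ)) := by ring
      _ ≤ 30 * (N : ℝ) ^ (1 / 2 : ℝ) := by
        rw [a4]
        have : 0 ≤ (N : ℝ) ^ (1 / 2 : ℝ) := by positivity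
        linarith
  have h10 : 3 * (N : ℝ) * ((2 * L) * ((2 * L) * Real.log 8) / K) ≤
      30 * ((N : ℝ) * (1 + L) ^ 2 / K) := by
    have a1 : L ^ 2 ≤ (1 + L) ^ 2 := by nlinarith
    calc 3 * (N : ℝ) * ((2 * L) * ((2 * L) * Real.log 8) / K)
        = 12 * Real.log 8 * ((N : ℝ) * L ^ 2 / K) := by ring
      _ ≤ 12 * 2.1 * ((N : ℝ) * (1 + L) ^ 2 / K) := by gcongr
      _ ≤ 30 * ((N : ℝ) * (1 + L) ^ 2 / K) := by
        have : 0 ≤ (N : ℝ) * (1 + L) ^ 2 / K := by positivity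
        linarith
  have h11 : 3 * (N : ℝ) * ∑ p ∈ (range (P + 1)).filter (fun p => p.Prime ∧ 3 ≤ p), th K p ≤
      3 * (N : ℝ) * ((2 * L) * ((2 * L) * Real.log 8) / K) :=
    mul_le_mul_of_nonneg_left h3 (by positivity)
  linarith

end Pool.Agent.Work.MP_2738db_nt_ZZ.helper23
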