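import Pool.Agent.Work.MP_2738db_nt_ZZ.Interface
import Pool.Agent.Work.LV.W2

/-!
**STP**: Stepanov's bound for `n`-th powers.
-/

set_option autoImplicit false

namespace Pool.Agent.Work.MP_2738db_nt_ZZ.helper23.STP

open Finset Polynomial Pool.Agent.Work.LV

variable {p : ℕ} [Fact p.Prime] {n : ℕ}

/-- `f` has an irreducible factor of multiplicity one -/
def Simple (f : (ZMod p)[X]) : Prop := ∃ π : (ZMod p)[X], Irreducible π ∧ π ∣ f ∧ ¬ π ^ 2 ∣ f

/-- **Nonvanishing lemma.** -/
theorem aux_ne_zero (hS : Stmt_Sta) {f : (ZMod p)[X]} {d D m : ℕ} (hn : 1 ≤ n)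
    (hd : f.natDegree ≤ d) (hf0 : f.eval 0 ≠ 0)
    (hπ : Simple f) (hm : n * m + 1 = p)
    (hD : (n - 1) * d + n * D < p) {J : ℕ} (r : Fin n → ℕ → (ZMod p)[X])
    (hr : ∀ i j, (r i j).natDegree ≤ D)
    (h0 : ∑ j ∈ range J, (∑ i : Fin n, r i j * f ^ (i.val * m)) * X ^ (j * p) = 0) :
    ∀ j < J, ∀ i, r i j = 0 := by
  intro j
  induction j using Nat.strong_induction_on with
  | _ j ih =>
    intro hj
    have hp : p ≠ 0 := (Fact.out : p.Prime).ne_zero
    -- only the terms with index at least `j` remain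
    have h1 : ∑ k ∈ range J, (∑ i : Fin n, r i k * f ^ (i.val * m)) * X ^ (k * p) =
        X ^ (j * p) * ∑ k ∈ range (J - j),
          (∑ i : Fin n, r i (j + k) * f ^ (i.val * m)) * X ^ (k * p) := by
      obtain ⟨t, rfl⟩ := Nat.exists_eq_add_of_le hj.le
      rw [Finset.sum_range_add]
      have h2 : ∑ k ∈ range j, (∑ i : Fin n, r i k * f ^ (i.val * m)) * X ^ (k * p) = 0 := by
        apply Finset.sum_eq_zero
        intro k hk
        rw [Finset.mem_range] at hk
        have := ih k hk (by omega)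
        simp [this]
      rw [h2, zero_add, Nat.add_sub_cancel_left, Finset.mul_sum]
      apply Finset.sum_congr rfl
      intro k _
      rw [add_mul, pow_add]
      ring
    rw [h1] at h0
    have h2 := (mul_eq_zero.mp h0).resolve_left (pow_ne_zero _ X_ne_zero)
    obtain ⟨t, ht⟩ : ∃ t, J - j = t + 1 := ⟨J - j - 1, by omega⟩
    rw [ht, Finset.sum_range_succ'] at h2
    simp only [zero_mul, pow_zero, mul_one, add_zero] at h2
    have h3 : (X : (ZMod p)[X]) ^ p ∣ ∑ k ∈ range t,
        (∑ i : Fin n, r i (j + (k + 1)) * f ^ (i.val * m)) * X ^ ((k + 1) * p) := by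
      apply Finset.dvd_sum
      intro k _
      apply Dvd.dvd.mul_left
      exact pow_dvd_pow _ (Nat.le_mul_of_pos_left _ (Nat.succ_pos k))
    have h4 : (X : (ZMod p)[X]) ^ p ∣ ∑ i : Fin n, r i j * f ^ (i.val * m) := by
      have := dvd_neg.mpr h3
      rwa [← eq_neg_of_add_eq_zero_right h2] at this
    exact hS p n m d D f hn hm hd hf0 hπ hD (fun i => r i j) (fun i => hr i j) h4

/-- The evaluation of the `k`-th derivative of the auxiliary polynomial at a point. -/
theorem eval_deriv_aux {f : (ZMod p)[X]} {m ℓ J : ℕ} (r : Fin n → ℕ → (ZMod p)[X])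
    {k : ℕ} (hk : k ≤ ℓ) {x a : ZMod p} (hx : f.eval x ^ m = a) :
    (derivative^[k] (∑ j ∈ range J, (∑ i : Fin n, r i j * f ^ (ℓ + i.val * m)) *
      X ^ (j * p))).eval x =
    f.eval x ^ (ℓ - k) *
      (∑ j ∈ range J, (∑ i : Fin n, C (a ^ i.val) * Lop f (ℓ + i.val * m) k (r i j)) *
        X ^ j).eval x := by
  rw [iterate_derivative_sum, eval_finsetSum, eval_finsetSum, Finset.mul_sum]
  apply Finset.sum_congr rfl
  intro j _
  have h1 : (∑ i : Fin n, r i j * f ^ (ℓ + i.val * m)) * X ^ (j * p) =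
      ∑ i : Fin n, f ^ (ℓ + i.val * m) * r i j * X ^ (j * p) := by
    rw [Finset.sum_mul]
    apply Finset.sum_congr rfl
    intro i _
    ring
  rw [h1, iterate_derivative_sum, eval_finsetSum]
  have h2 : ∀ i : Fin n, (derivative^[k] (f ^ (ℓ + i.val * m) * r i j * X ^ (j * p))).eval x =
      f.eval x ^ (ℓ - k) * (a ^ i.val * (Lop f (ℓ + i.val * m) k (r i j)).eval x * x ^ j) := by
    intro i
    rw [iterate_deriv_term _ _ _ _ _ (by omega)]
    have h3 : ℓ + i.val * m - k = (ℓ - k) + i.val * m := by omega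
    rw [h3, eval_mul, eval_mul, eval_pow, eval_pow, eval_X, pow_mul, pow_add, ← hx,
      ZMod.pow_card]
    have h4 : (f.eval x) ^ (i.val * m) = (f.eval x ^ m) ^ i.val := by
      rw [mul_comm, pow_mul]
    rw [h4]
    ring
  simp_rw [h2]
  rw [eval_mul, eval_finsetSum, eval_pow, eval_X, Finset.sum_mul, Finset.mul_sum]
  apply Finset.sum_congr rfl
  intro i _
  rw [eval_mul, eval_C]

section count

variable {J ℓ D : ℕ}

/-- Extension of a finite family of polynomials by zero. -/
noncomputable def extR (r : Fin J → Fin n → degreeLT (ZMod p) (D + 1)) :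
    Fin n → ℕ → (ZMod p)[X] :=
  fun i j => if h : j < J then (r ⟨j, h⟩ i : (ZMod p)[X]) else 0

/-- The polynomial whose vanishing makes the `k`-th derivative vanish at the points with
`f ^ m = a`, as a linear map. -/
noncomputable def SS (f : (ZMod p)[X]) (n m ℓ : ℕ) (a : ZMod p) (J D k : ℕ) :
    (Fin J → Fin n → degreeLT (ZMod p) (D + 1)) →ₗ[ZMod p] (ZMod p)[X] :=
  ∑ j : Fin J, ∑ i : Fin n, LinearMap.mulLeft (ZMod p) (C (a ^ i.val) * X ^ j.val) ∘ₗ
    Lop f (ℓ + i.val * m) k ∘ₗ (degreeLT (ZMod p) (D + 1)).subtype ∘ₗ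
      LinearMap.proj i ∘ₗ LinearMap.proj j

theorem SS_apply (f : (ZMod p)[X]) (m : ℕ) (a : ZMod p) (k : ℕ)
    (r : Fin J → Fin n → degreeLT (ZMod p) (D + 1)) :
    SS f n m ℓ a J D k r = ∑ j ∈ range J,
      (∑ i : Fin n, C (a ^ i.val) * Lop f (ℓ + i.val * m) k (extR r i j)) * X ^ j := by
  rw [Finset.sum_range, SS, LinearMap.sum_apply]
  apply Finset.sum_congr rfl
  intro j _
  rw [LinearMap.sum_apply, Finset.sum_mul]
  apply Finset.sum_congr rfl
  intro i _
  have h1 : extR r i j = (r j i : (ZMod p)[X]) := by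
    rw [extR, dif_pos j.2]
  rw [h1]
  simp only [LinearMap.comp_apply, LinearMap.mulLeft_apply, LinearMap.proj_apply,
    Submodule.subtype_apply]
  ring

theorem extR_natDegree (r : Fin J → Fin n → degreeLT (ZMod p) (D + 1)) (i : Fin n) (j : ℕ) :
    (extR r i j).natDegree ≤ D := by
  unfold extR
  split_ifs with h
  · exact natDegree_of_mem
  · simp

theorem SS_natDegree {f : (ZMod p)[X]} {d : ℕ} (hd : f.natDegree ≤ d) (m : ℕ) (a : ZMod p) (k : ℕ)
    (r : Fin J → Fin n → degreeLT (ZMod p) (D + 1)) :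
    (SS f n m ℓ a J D k r).natDegree ≤ D + k * d + (J - 1) := by
  rw [SS_apply]
  apply natDegree_sum_le_of_forall_le
  intro j hj
  rw [Finset.mem_range] at hj
  refine natDegree_mul_le.trans (add_le_add ?_ ?_)
  · apply natDegree_sum_le_of_forall_le
    intro i _
    exact (natDegree_C_mul_le _ _).trans (Lop_natDegree hd _ (extR_natDegree r i j) k)
  · rw [natDegree_X_pow]; omega

/-- Existence of the auxiliary coefficients. -/
theorem exists_coeffs {f : (ZMod p)[X]} {d : ℕ} (hd : f.natDegree ≤ d) (m : ℕ) (a : ZMod p)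
    (hJ : 1 ≤ J) (hcount : ∑ k ∈ range ℓ, (D + k * d + J) < n * J * (D + 1)) :
    ∃ r : Fin J → Fin n → degreeLT (ZMod p) (D + 1), r ≠ 0 ∧
      ∀ k < ℓ, SS f n m ℓ a J D k r = 0 := by
  let Φ : (Fin J → Fin n → degreeLT (ZMod p) (D + 1)) →ₗ[ZMod p]
      ((k : Fin ℓ) → (Fin (D + k.val * d + J) → ZMod p)) :=
    LinearMap.pi fun k => LinearMap.pi fun i => lcoeff (ZMod p) i.val ∘ₗ SS f n m ℓ a J D k.val
  have hfd : FiniteDimensional (ZMod p) (degreeLT (ZMod p) (D + 1)) :=
    Module.Finite.equiv (degreeLTEquiv (ZMod p) (D + 1)).symm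
  have hdim : Module.finrank (ZMod p) (degreeLT (ZMod p) (D + 1)) = D + 1 := by
    rw [LinearEquiv.finrank_eq (degreeLTEquiv (ZMod p) (D + 1)), Module.finrank_fin_fun]
  have hlt : Module.finrank (ZMod p) ((k : Fin ℓ) → (Fin (D + k.val * d + J) → ZMod p)) <
      Module.finrank (ZMod p) (Fin J → Fin n → degreeLT (ZMod p) (D + 1)) := by
    rw [Module.finrank_pi_fintype, Module.finrank_pi_fintype]
    simp only [Module.finrank_pi_fintype, hdim, Finset.sum_const,
      Finset.card_univ, Fintype.card_fin, smul_eq_mul, Module.finrank_self, mul_one]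
    rw [Finset.sum_range] at hcount
    calc ∑ k : Fin ℓ, (D + k.val * d + J) < n * J * (D + 1) := hcount
      _ = J * (n * (D + 1)) := by ring
  have hker := LinearMap.ker_ne_bot_of_finrank_lt (f := Φ) hlt
  obtain ⟨r, hr, hr0⟩ := Submodule.exists_mem_ne_zero_of_ne_bot hker
  refine ⟨r, hr0, fun k hk => ?_⟩
  rw [LinearMap.mem_ker] at hr
  ext i
  rw [coeff_zero]
  by_cases hi : i < D + k * d + J
  · exact congrFun (congrFun hr ⟨k, hk⟩) ⟨i, hi⟩
  · apply coeff_eq_zero_of_natDegree_lt
    have := SS_natDegree (ℓ := ℓ) hd m a k r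
    omega

/-- **Stepanov's bound.** -/
theorem stepanov_count (hS : Stmt_Sta) {f : (ZMod p)[X]} {d m : ℕ} (hn : 1 ≤ n)
    (hd : f.natDegree ≤ d) (hf0 : f.eval 0 ≠ 0)
    (hπ : Simple f) (hm : n * m + 1 = p)
    (hD : (n - 1) * d + n * D < p) (hJ : 1 ≤ J) (hℓ : ℓ ≤ p)
    (hcount : ∑ k ∈ range ℓ, (D + k * d + J) < n * J * (D + 1)) (a : ZMod p) :
    ℓ * (univ.filter fun x : ZMod p => f.eval x ^ m = a).card ≤
      D + (ℓ + (n - 1) * m) * d + (J - 1) * p := by
  classical
  obtain ⟨r, hr0, hr⟩ := exists_coeffs (ℓ := ℓ) hd m a hJ hcount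
  set R := extR r with hR
  set P : (ZMod p)[X] := ∑ j ∈ range J, (∑ i : Fin n, R i j * f ^ (ℓ + i.val * m)) *
      X ^ (j * p) with hP
  have hPf : P = f ^ ℓ * ∑ j ∈ range J, (∑ i : Fin n, R i j * f ^ (i.val * m)) * X ^ (j * p) := by
    rw [hP, Finset.mul_sum]
    apply Finset.sum_congr rfl
    intro j _
    rw [← mul_assoc]
    congr 1
    rw [Finset.mul_sum]
    apply Finset.sum_congr rfl
    intro i _
    rw [pow_add]; ring
  have hf : f ≠ 0 := by rintro rfl; simp at hf0
  have hP0 : P ≠ 0 := by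
    rw [hPf]
    apply mul_ne_zero (pow_ne_zero _ hf)
    intro h0
    have h1 := aux_ne_zero hS hn hd hf0 hπ hm hD R (extR_natDegree r) h0
    apply hr0
    funext j i
    have h2 := h1 j j.2 i
    rw [hR, extR, dif_pos j.2] at h2
    exact Subtype.ext h2
  -- multiplicity at the points
  have hmult : ∀ x ∈ univ.filter (fun x : ZMod p => f.eval x ^ m = a),
      ℓ ≤ P.rootMultiplicity x := by
    intro x hx
    rw [Finset.mem_filter] at hx
    rcases Nat.eq_zero_or_pos ℓ with h0 | hpos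
    · omega
    have h1 : ℓ - 1 < P.rootMultiplicity x := by
      apply lt_rootMultiplicity_of_isRoot_iterate_derivative_of_mem_nonZeroDivisors' hP0
      · intro k hk
        rw [IsRoot, hP, eval_deriv_aux R (by omega) hx.2]
        have h2 := hr k (by omega)
        rw [SS_apply] at h2
        rw [h2, eval_zero, mul_zero]
      · intro k hk hk0
        rw [mem_nonZeroDivisors_iff_ne_zero, Ne, ZMod.natCast_eq_zero_iff]
        intro hdvd
        have := Nat.le_of_dvd (Nat.pos_of_ne_zero hk0) hdvd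
        omega
    omega
  have hdeg : P.natDegree ≤ D + (ℓ + (n - 1) * m) * d + (J - 1) * p := by
    rw [hP]
    apply natDegree_sum_le_of_forall_le
    intro j hj
    rw [Finset.mem_range] at hj
    refine natDegree_mul_le.trans (add_le_add ?_ ?_)
    · apply natDegree_sum_le_of_forall_le
      intro i _
      refine natDegree_mul_le.trans (add_le_add (extR_natDegree r i j) ?_)
      refine natDegree_pow_le.trans ?_
      have hi : i.val ≤ n - 1 := by omega
      exact Nat.mul_le_mul (Nat.add_le_add_left (Nat.mul_le_mul_right _ hi) _) hd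
    · rw [natDegree_X_pow]
      exact Nat.mul_le_mul_right _ (by omega)
  calc ℓ * (univ.filter fun x : ZMod p => f.eval x ^ m = a).card
      = ∑ x ∈ univ.filter (fun x : ZMod p => f.eval x ^ m = a), ℓ := by
        rw [Finset.sum_const, smul_eq_mul, mul_comm]
    _ ≤ ∑ x ∈ univ.filter (fun x : ZMod p => f.eval x ^ m = a), P.rootMultiplicity x :=
        Finset.sum_le_sum hmult
    _ = ∑ x ∈ univ.filter (fun x : ZMod p => f.eval x ^ m = a), P.roots.count x := by
        apply Finset.sum_congr rfl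
        intro x _
        rw [count_roots]
    _ ≤ ∑ x : ZMod p, P.roots.count x :=
        Finset.sum_le_sum_of_subset (Finset.filter_subset _ _)
    _ = Multiset.card P.roots := Multiset.sum_count_eq_card (fun x _ => Finset.mem_univ x)
    _ ≤ P.natDegree := card_roots' P
    _ ≤ D + (ℓ + (n - 1) * m) * d + (J - 1) * p := hdeg

end count

/-- The counting bound with explicit parameters. -/
theorem count_params (hS : Stmt_Sta) {f : (ZMod p)[X]} {d m s t : ℕ} (hn : 1 ≤ n) (hd1 : 1 ≤ d)
    (hd : f.natDegree ≤ d) (hf0 : f.eval 0 ≠ 0)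
    (hπ : Simple f) (hm : n * m + 1 = p)
    (hs : s * s ≤ p) (ht : t = n * n * d + 2 * n) (hst : 4 * n * d + 1 ≤ s) (a : ZMod p) :
    n * s * (univ.filter fun x : ZMod p => f.eval x ^ m = a).card ≤
      s * p + (1 + d + t) * p + n * s * d := by
  have hnd : n ≤ n * d := Nat.le_mul_of_pos_right n hd1
  have hdn : d ≤ n * d := Nat.le_mul_of_pos_left d hn
  have h1 : s ≤ s * s := Nat.le_mul_self s
  have hss : (4 * n * d + 1) * s ≤ s * s := Nat.mul_le_mul_right s hst
  have hns : n * s ≤ s * s := Nat.mul_le_mul_right s (by nlinarith)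
  have hndp : n * d < p := by nlinarith
  have hnd' : (n - 1) * d ≤ n * d := Nat.mul_le_mul_right _ (Nat.sub_le _ _)
  obtain ⟨D, hD1, hD2⟩ : ∃ D, (n - 1) * d + n * D < p ∧ p ≤ n * (D + 1) + (n - 1) * d := by
    set e := (n - 1) * d with he
    have h2 : e < p := by omega
    refine ⟨(p - e - 1) / n, ?_, ?_⟩
    · have := Nat.mul_div_le (p - e - 1) n
      omega
    · have := Nat.lt_mul_div_succ (p - e - 1) (by omega : 0 < n)
      omega
  have hsum : ∑ k ∈ range (n * s), (D + k * d + (s + t)) < n * (s + t) * (D + 1) := by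
    have e1 : 2 * ∑ k ∈ range (n * s), (D + k * d + (s + t)) ≤
        2 * (n * s * (D + (s + t))) + n * s * (n * s) * d := by
      have e2 : ∑ k ∈ range (n * s), (D + k * d + (s + t)) =
          n * s * (D + (s + t)) + (∑ k ∈ range (n * s), k) * d := by
        rw [Finset.sum_mul, ← smul_eq_mul (n * s), ← Finset.card_range (n * s),
          ← Finset.sum_const, Finset.card_range, ← Finset.sum_add_distrib]
        apply Finset.sum_congr rfl
        intro k _
        ring
      have e3 : (∑ k ∈ range (n * s), k) * 2 ≤ n * s * (n * s) := by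
        rw [Finset.sum_range_id_mul_two]
        exact Nat.mul_le_mul_left _ (Nat.sub_le _ _)
      have e4 := Nat.mul_le_mul_right d e3
      rw [e2]
      nlinarith
    have key : 2 * (n * s * (D + (s + t))) + n * s * (n * s) * d < 2 * (n * (s + t) * (D + 1)) := by
      -- `n (D + 1) ≥ s² - n d`
      have f1 : s * s ≤ n * (D + 1) + n * d := by omega
      have f2 : t * (s * s) ≤ t * (n * (D + 1) + n * d) := Nat.mul_le_mul_left _ f1
      have f3 : 2 * (n * s * (s + t)) + n * s * (n * s) * d + 2 * (t * (n * d)) <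
          2 * (n * s) + 2 * (t * (s * s)) := by
        -- `2 n (s + d) < s²`, times `t`
        have g1 : 2 * n * s + 2 * n * d < s * s := by nlinarith
        have ht0 : 1 ≤ t := by rw [ht]; omega
        have g2 : t * (2 * n * s + 2 * n * d) < t * (s * s) :=
          Nat.mul_lt_mul_of_pos_left g1 ht0
        have g3 : t * (s * s) = n * n * d * (s * s) + 2 * n * (s * s) := by rw [ht]; ring
        nlinarith
      nlinarith
    omega
  have h2 := stepanov_count (ℓ := n * s) (J := s + t) hS hn hd hf0 hπ hm hD1 (by omega)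
    (by omega) hsum a
  refine h2.trans ?_
  have h4 : D ≤ p := by
    have : D ≤ n * D := Nat.le_mul_of_pos_left D hn
    omega
  have h5 : (n - 1) * m ≤ p := by
    have : (n - 1) * m ≤ n * m := Nat.mul_le_mul_right _ (Nat.sub_le _ _)
    omega
  have h6 : (s + t - 1) * p ≤ (s + t) * p := Nat.mul_le_mul_right _ (by omega)
  have h7 : (n - 1) * m * d ≤ p * d := Nat.mul_le_mul_right _ h5
  nlinarith

/-- Real form of the counting bound. -/
theorem count_real (hS : Stmt_Sta) {f : (ZMod p)[X]} {d m : ℕ} (hn : 1 ≤ n) (hd1 : 1 ≤ d)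
    (hd : f.natDegree ≤ d) (hf0 : f.eval 0 ≠ 0)
    (hπ : Simple f) (hm : n * m + 1 = p)
    (hp : 4 * n * d + 1 ≤ Nat.sqrt p) (a : ZMod p) :
    ((univ.filter fun x : ZMod p => f.eval x ^ m = a).card : ℝ) ≤
      p / n + 11 * ((n : ℝ) * d) ^ 2 * Real.sqrt p := by
  set s := Nat.sqrt p with hs
  have h1 := count_params (t := n * n * d + 2 * n) hS hn hd1 hd hf0 hπ hm (Nat.sqrt_le p) rfl
    hp a
  rw [← hs] at h1
  set N := (univ.filter fun x : ZMod p => f.eval x ^ m = a).card with hN
  have hn' : (1 : ℝ) ≤ n := by exact_mod_cast hn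
  have hd' : (1 : ℝ) ≤ d := by exact_mod_cast hd1
  have h2 : ((n : ℝ) * s) * N ≤ s * p + (1 + d + (n * n * d + 2 * n)) * p + n * s * d := by
    exact_mod_cast h1
  have hs0 : (0 : ℝ) < s := by
    have : 0 < s := by omega
    exact_mod_cast this
  have hsq : Real.sqrt p ≤ 2 * s := by
    rw [Real.sqrt_le_left (by positivity)]
    have h3 := Nat.lt_succ_sqrt p
    rw [← hs] at h3
    have h4 : p ≤ (2 * s) * (2 * s) := by
      have : s + 1 ≤ 2 * s := by omega
      have := Nat.mul_le_mul this this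
      rw [Nat.succ_eq_add_one] at h3
      omega
    have h5 : (p : ℝ) ≤ ((2 * s) * (2 * s) : ℕ) := by exact_mod_cast h4
    push_cast at h5
    nlinarith
  have hp1 : (1 : ℝ) ≤ Real.sqrt p := by
    rw [Real.one_le_sqrt]
    exact_mod_cast (Fact.out : p.Prime).one_lt.le
  have hpp : (p : ℝ) = Real.sqrt p * Real.sqrt p := (Real.mul_self_sqrt (by positivity)).symm
  have h6 : (p : ℝ) ≤ Real.sqrt p * (2 * s) := by
    conv_lhs => rw [hpp]
    exact mul_le_mul_of_nonneg_left hsq (Real.sqrt_nonneg _)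
  -- `1 + d + n² d + 2 n ≤ 5 n² d`
  have hnd : (1 : ℝ) ≤ n * d := by nlinarith
  have hX : (1 : ℝ) + d + (n * n * d + 2 * n) ≤ 5 * (n * (n * d)) := by
    have a1 : (1 : ℝ) ≤ n * (n * d) := by nlinarith
    have a2 : (d : ℝ) ≤ n * (n * d) := by nlinarith
    have a3 : (n : ℝ) ≤ n * (n * d) := by nlinarith
    nlinarith
  have h7 : ((n : ℝ) * s) * N ≤ (n * s) * (p / n + 11 * ((n : ℝ) * d) ^ 2 * Real.sqrt p) := by
    have e1 : ((n : ℝ) * s) * (p / n) = s * p := by
      field_simp
    have e2 : (1 + d + (n * n * d + 2 * n)) * (p : ℝ) ≤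
        5 * (n * (n * d)) * (Real.sqrt p * (2 * s)) :=
      mul_le_mul hX h6 (by positivity) (by positivity)
    have e3 : (n : ℝ) * s * d ≤ (n * s) * (((n : ℝ) * d) ^ 2 * Real.sqrt p) := by
      refine mul_le_mul_of_nonneg_left ?_ (by positivity)
      have b1 : (d : ℝ) ≤ n * d := by nlinarith
      have b2 : (n : ℝ) * d ≤ (n * d) ^ 2 := by nlinarith
      have b3 : ((n : ℝ) * d) ^ 2 * 1 ≤ (n * d) ^ 2 * Real.sqrt p :=
        mul_le_mul_of_nonneg_left hp1 (by positivity)
      linarith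
    have e4 : 5 * (n * (n * (d : ℝ))) * (Real.sqrt p * (2 * s)) ≤
        (n * s) * (10 * ((n : ℝ) * d) ^ 2 * Real.sqrt p) := by
      have c1 : (n : ℝ) * d ≤ (n * d) ^ 2 := by nlinarith
      have c2 : 0 ≤ (n * s) * Real.sqrt p * 10 := by positivity
      have c3 := mul_le_mul_of_nonneg_left c1 c2
      calc 5 * (n * (n * (d : ℝ))) * (Real.sqrt p * (2 * s)) =
          (n * s) * Real.sqrt p * 10 * (n * d) := by ring
        _ ≤ (n * s) * Real.sqrt p * 10 * (n * d) ^ 2 := c3
        _ = (n * s) * (10 * ((n : ℝ) * d) ^ 2 * Real.sqrt p) := by ring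
    rw [mul_add, e1]
    calc ((n : ℝ) * s) * N ≤ s * p + (1 + d + (n * n * d + 2 * n)) * p + n * s * d := h2
      _ ≤ s * p + (n * s) * (10 * ((n : ℝ) * d) ^ 2 * Real.sqrt p) +
          (n * s) * (((n : ℝ) * d) ^ 2 * Real.sqrt p) := by
        linarith
      _ = s * p + n * s * (11 * ((n : ℝ) * d) ^ 2 * Real.sqrt p) := by ring
  exact le_of_mul_le_mul_left h7 (by positivity)

/-- translation -/
theorem simple_comp {f : (ZMod p)[X]} (hπ : Simple f) (t : ZMod p) :
    Simple (f.comp (X + C t)) := by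
  obtain ⟨π, h1, h2, h3⟩ := hπ
  have e : ∀ g : (ZMod p)[X], algEquivAevalXAddC t g = g.comp (X + C t) := by
    intro g
    rw [algEquivAevalXAddC_apply, comp, aeval_def]
    rfl
  refine ⟨π.comp (X + C t), ?_, ?_, ?_⟩
  · rw [← e]
    exact (MulEquiv.irreducible_iff (algEquivAevalXAddC t)).2 h1
  · rw [← e, ← e]
    exact map_dvd _ h2
  · rw [← e, ← e, ← map_pow, map_dvd_iff]
    exact h3

end Pool.Agent.Work.MP_2738db_nt_ZZ.helper23.STP

namespace Pool.Agent.Work.MP_2738db_nt_ZZ.helper23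

open Finset Polynomial STP

/-- **STP** -/
theorem stp (hS : Stmt_Sta) : Stmt_Stp := by
  refine ⟨11, by norm_num, ?_⟩
  intro q n d _ f hn hdvd hd1 hd hπ
  have hn' : (1 : ℝ) ≤ n := by exact_mod_cast hn
  have hd' : (1 : ℝ) ≤ d := by exact_mod_cast hd1
  have hnd : (1 : ℝ) ≤ n * d := by nlinarith
  have hq1 : 1 < q := (Fact.out : q.Prime).one_lt
  set m := (q - 1) / n with hm
  have hmn : n * m + 1 = q := by
    rw [hm, Nat.mul_div_cancel' hdvd]
    omega
  have hpow : ((n : ℝ) * d) ^ 2 ≤ ((n : ℝ) * d) ^ (11 : ℝ) := by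
    rw [← Real.rpow_natCast]
    exact Real.rpow_le_rpow_of_exponent_le hnd (by norm_num)
  have hsq0 := Real.sqrt_nonneg (q : ℝ)
  have hcard : Nat.card {y : ZMod q // f.eval y ^ m = 1} =
      (univ.filter fun x : ZMod q => f.eval x ^ m = 1).card := by
    rw [Nat.card_eq_fintype_card, Fintype.card_subtype]
  have hf : f ≠ 0 := by
    rintro rfl
    obtain ⟨π, -, -, h3⟩ := hπ
    exact h3 (dvd_zero _)
  have goal2 : ∀ B : ℝ, B ≤ q / n + 11 * ((n : ℝ) * d) ^ 2 * Real.sqrt q →
      B ≤ q / n + 11 * ((n : ℝ) * d) ^ (11 : ℝ) * Real.sqrt q := by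
    intro B hB
    refine hB.trans ?_
    have := mul_le_mul_of_nonneg_right hpow hsq0
    nlinarith
  apply goal2
  by_cases hp : 4 * n * d + 1 ≤ Nat.sqrt q
  · have hdq : d < q := by
      have := Nat.sqrt_le_self q
      nlinarith
    obtain ⟨t, ht⟩ : ∃ t : ZMod q, f.eval t ≠ 0 := by
      by_contra hcon
      push Not at hcon
      apply hf
      apply Polynomial.eq_zero_of_natDegree_lt_card_of_eval_eq_zero (ι := ZMod q) f
        (fun _ _ h => h) hcon
      rw [ZMod.card]
      omega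
    have h4 := count_real hS (f := f.comp (X + C t)) (d := d) hn hd1
      (by rw [natDegree_comp, natDegree_X_add_C, mul_one]; exact hd)
      (by rw [eval_comp]; simpa using ht) (simple_comp hπ t) hmn hp 1
    have h5 : Nat.card {y : ZMod q // f.eval y ^ m = 1} =
        (univ.filter fun x : ZMod q => (f.comp (X + C t)).eval x ^ m = 1).card := by
      rw [← Fintype.card_subtype, ← Nat.card_eq_fintype_card]
      refine (Nat.card_congr ((Equiv.addRight t).subtypeEquiv fun y => ?_)).symm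
      rw [eval_comp, eval_add, eval_X, eval_C]
      rfl
    rw [h5]
    exact h4
  · have h4 : Real.sqrt q ≤ 4 * n * d + 1 := by
      rw [Real.sqrt_le_left (by positivity)]
      have h5 := Nat.lt_succ_sqrt q
      have h6 : Nat.sqrt q + 1 ≤ 4 * n * d + 1 := by omega
      have h7 := Nat.mul_le_mul h6 h6
      rw [Nat.succ_eq_add_one] at h5
      have h8 : q ≤ (4 * n * d + 1) * (4 * n * d + 1) := by omega
      have h9 : (q : ℝ) ≤ (((4 * n * d + 1) * (4 * n * d + 1) : ℕ) : ℝ) := by exact_mod_cast h8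
      push_cast at h9
      nlinarith
    have h5 : (Nat.card {y : ZMod q // f.eval y ^ m = 1} : ℝ) ≤ q := by
      rw [hcard]
      have : (univ.filter fun x : ZMod q => f.eval x ^ m = 1).card ≤ q := by
        refine (card_filter_le _ _).trans ?_
        rw [card_univ, ZMod.card]
      exact_mod_cast this
    have h6 : (q : ℝ) = Real.sqrt q * Real.sqrt q := (Real.mul_self_sqrt (by positivity)).symm
    have h7 : (q : ℝ) ≤ (4 * n * d + 1) * Real.sqrt q := by
      conv_lhs => rw [h6]
      exact mul_le_mul_of_nonneg_right h4 hsq0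
    have h8 : (4 * (n : ℝ) * d + 1) ≤ 11 * ((n : ℝ) * d) ^ 2 := by nlinarith
    have h9 := mul_le_mul_of_nonneg_right h8 hsq0
    have h10 : (0 : ℝ) ≤ q / n := by positivity
    linarith

end Pool.Agent.Work.MP_2738db_nt_ZZ.helper23
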